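import Mathlib
import Pool.Agent.Helper72.TD
import Pool.Agent.Helper72.TF2

/-!
A connected closed tight simplicial manifold of dimension `31` none of whose iterated
barycentric subdivisions is perfect modulo two.
-/

namespace Pool.Agent.Results.MP_e98a5c_gt.TightNotPerfect

open Pool.Agent.Helper72.TD

theorem result : ∃ C : FinComplex,
    C.IsManifold 31 ∧ IsConnected C.real ∧ C.Tight ∧
      ∀ m : ℕ, ¬ (FinComplex.sd^[m] C).Perfect :=
  Pool.Agent.Helper72.TF.main

end Pool.Agent.Results.MP_e98a5c_gt.TightNotPerfect
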